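import Pool.Agent.Helper76.TC2.Goals
import Pool.Agent.Helper62.TC.BO

/-!
# Project TC2 (MP_ccd65d_gt), packet TC2-BO (helper62)
-/

set_option autoImplicit false

open Set Topology

namespace Pool.Agent.Helper62.TC2.BO

open Pool.Agent.Helper76.TC Pool.Agent.Helper76.TC2
open Pool.Agent.Helper62.TC.BO (med_mono med_min med_max bt bt2)

theorem norm_le {a b p q : Fin 3 → ℝ} (ha : ∀ i, a i ∈ uIcc (p i) (q i))
    (hb : ∀ i, b i ∈ uIcc (p i) (q i)) : ‖a - b‖ ≤ ‖p - q‖ := by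
  refine (pi_norm_le_iff_of_nonneg (norm_nonneg _)).2 fun i => ?_
  refine le_trans ?_ (norm_le_pi_norm (p - q) i)
  rw [Real.norm_eq_abs, Real.norm_eq_abs, Pi.sub_apply, Pi.sub_apply]
  obtain ⟨h1, h2⟩ := ha i
  obtain ⟨h3, h4⟩ := hb i
  have h5 : max (p i) (q i) - min (p i) (q i) = |p i - q i| := max_sub_min_eq_abs' _ _
  rw [← h5, abs_le]
  constructor
  · have h6 : b i - a i ≤ max (p i) (q i) - min (p i) (q i) := sub_le_sub h4 h1
    linarith
  · exact sub_le_sub h2 h3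

theorem seg_mem {u v t : ℝ} (ht : t ∈ Icc (0 : ℝ) 1) : u + t * (v - u) ∈ uIcc u v := by
  refine segment_subset_uIcc u v ⟨1 - t, t, by linarith [ht.2], ht.1, by ring, ?_⟩
  simp only [smul_eq_mul]
  ring

theorem half (h1 : S_WT) (h2 : S_WS) (p q : Fin 3 → ℝ) (h : g3 p ≤ g3 q) :
    W 3 g3 (3 * ‖p - q‖) |g3 p - g3 q| p q := by
  obtain ⟨β, hβ⟩ : ∃ β, β = g3 q := ⟨_, rfl⟩
  rw [← hβ] at h ⊢
  obtain ⟨p', hp'⟩ : ∃ p' : Fin 3 → ℝ, ∀ i, p' i = max (p i) (min (q i) β) := ⟨_, fun i => rfl⟩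
  obtain ⟨r, hr⟩ : ∃ r : Fin 3 → ℝ, ∀ i, r i = max (min (p' i) (q i)) (min (max (p' i) (q i)) β) :=
    ⟨_, fun i => rfl⟩
  have c1 : ∀ i, p i ≤ p' i := fun i => by rw [hp']; exact le_max_left _ _
  have c2 : ∀ i, p' i ∈ uIcc (p i) (q i) := by
    intro i
    rw [hp' i]
    constructor
    · exact inf_le_left.trans (le_max_left _ _)
    · exact max_le le_sup_left ((min_le_left _ _).trans le_sup_right)
  have c3 : ∀ i, r i ∈ uIcc (p i) (q i) := by
    intro i
    obtain ⟨h1, h2⟩ := c2 i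
    rw [hr i]
    constructor
    · exact (le_min h1 inf_le_right).trans (le_max_left _ _)
    · exact max_le ((min_le_left _ _).trans h2) ((min_le_left _ _).trans (max_le h2 le_sup_right))
  have m1 : g3 p' = β := by
    unfold g3
    apply le_antisymm
    · have e := med_max (p 0) (p 1) (p 2) β
      rw [max_eq_right (show med (p 0) (p 1) (p 2) ≤ β from h)] at e
      rw [← e]
      have : ∀ i, p' i ≤ max (p i) β := fun i => by
        rw [hp']
        exact max_le_max le_rfl (min_le_right _ _)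
      exact med_mono (this 0) (this 1) (this 2)
    · have e := med_min (q 0) (q 1) (q 2) β
      rw [show med (q 0) (q 1) (q 2) = β from hβ.symm, min_self] at e
      rw [← e]
      have : ∀ i, min (q i) β ≤ p' i := fun i => by
        rw [hp']
        exact le_max_right _ _
      exact med_mono (this 0) (this 1) (this 2)
  have mid : ∀ (a z : Fin 3 → ℝ), g3 a = β →
      (∀ i, min (a i) β ≤ z i ∧ z i ≤ max (a i) β) → g3 z = β := by
    intro a z ha hz
    unfold g3 at ha ⊢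
    apply le_antisymm
    · have e := med_max (a 0) (a 1) (a 2) β
      rw [ha, max_self] at e
      rw [← e]
      exact med_mono (hz 0).2 (hz 1).2 (hz 2).2
    · have e := med_min (a 0) (a 1) (a 2) β
      rw [ha, min_self] at e
      rw [← e]
      exact med_mono (hz 0).1 (hz 1).1 (hz 2).1
  have s1 : W 3 g3 ‖p - p'‖ |g3 p - g3 p'| p p' := by
    refine h2 3 g3 p p' (Or.inl fun s _ t _ hst => ?_)
    have h3 : ∀ i, (p + s • (p' - p)) i ≤ (p + t • (p' - p)) i := by
      intro i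
      simp only [Pi.add_apply, Pi.smul_apply, Pi.sub_apply, smul_eq_mul]
      have := mul_le_mul_of_nonneg_right hst (sub_nonneg.2 (c1 i))
      linarith
    exact med_mono (h3 0) (h3 1) (h3 2)
  have s2 : W 3 g3 ‖p' - r‖ |g3 p' - g3 r| p' r := by
    have h3 : ∀ t ∈ Icc (0 : ℝ) 1, g3 (p' + t • (r - p')) = β := by
      intro t ht
      refine mid p' _ m1 fun i => bt (q := q i) ?_
      rw [← hr i]
      simp only [Pi.add_apply, Pi.smul_apply, Pi.sub_apply, smul_eq_mul]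
      exact seg_mem ht
    refine h2 3 g3 p' r (Or.inl fun s hs t ht _ => ?_)
    simp only
    rw [h3 s hs, h3 t ht]
  have s3 : W 3 g3 ‖r - q‖ |g3 r - g3 q| r q := by
    have h3 : ∀ t ∈ Icc (0 : ℝ) 1, g3 (r + t • (q - r)) = β := by
      intro t ht
      refine mid q _ hβ.symm fun i => bt2 (p := p' i) ?_
      rw [← hr i]
      simp only [Pi.add_apply, Pi.smul_apply, Pi.sub_apply, smul_eq_mul]
      exact seg_mem ht
    refine h2 3 g3 r q (Or.inl fun s hs t ht _ => ?_)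
    simp only
    rw [h3 s hs, h3 t ht]
  have m2 : g3 r = β := by
    refine mid p' r m1 fun i => bt (q := q i) ?_
    rw [← hr i]
    exact right_mem_uIcc
  rw [m1] at s1 s2
  rw [m2] at s2 s3
  rw [← hβ] at s3
  rw [sub_self, abs_zero] at s2 s3
  obtain ⟨w1, -, w3, -⟩ := h1 3 g3
  refine w3 _ _ _ _ _ _ ?_ ?_ (w1 _ _ _ _ _ _ _ (w1 _ _ _ _ _ _ _ s1 s2) s3)
  · have n1 : ‖p - p'‖ ≤ ‖p - q‖ := norm_le (fun i => left_mem_uIcc) c2
    have n2 : ‖p' - r‖ ≤ ‖p - q‖ := norm_le c2 c3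
    have n3 : ‖r - q‖ ≤ ‖p - q‖ := norm_le c3 (fun i => right_mem_uIcc)
    linarith
  · linarith

theorem t (h1 : S_WT) (h2 : S_WS) : S_BO2 := by
  intro p q
  rcases le_total (g3 p) (g3 q) with h | h
  · exact half h1 h2 p q h
  · have h3 := (h1 3 g3).2.1 _ _ _ _ (half h1 h2 q p h)
    rw [norm_sub_rev, abs_sub_comm]
    exact h3

end Pool.Agent.Helper62.TC2.BO
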